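import Pool.Agent.helper22.WC.Spec

/-! Project wc (MP_baa4d7_al), row SEP: surjections by Moebius inversion over the subgroups. -/

set_option autoImplicit false

namespace Pool.Agent.WC

open Pool.Agent.helper58.DC Pool.Agent.DI Pool.Agent.DR

section

variable {G E A : Type} [Group G] [Group E] [Group A]

/-- the subgroup generated by the entries -/
private def SEP_gen (X : Extension G E A) {n : ℕ} (z : (Fin n → E) × (Fin n → G)) : Subgroup E :=
  Subgroup.closure (Set.range z.1 ∪ Set.range fun i => X.inc (z.2 i))

private theorem SEP_gen_le (X : Extension G E A) {n : ℕ} (z : (Fin n → E) × (Fin n → G))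
    (L : Subgroup E) : SEP_gen X z ≤ L ↔ (∀ i, z.1 i ∈ L) ∧ ∀ i, X.inc (z.2 i) ∈ L := by
  unfold SEP_gen
  rw [Subgroup.closure_le, Set.union_subset_iff, Set.range_subset_iff, Set.range_subset_iff]
  rfl

end

theorem SEP (hMOB : MOB_stmt) : SEP_stmt := by
  classical
  intro G E A _ _ _ _ _ X n a
  have := Fintype.ofFinite G
  have := Fintype.ofFinite E
  have : Finite (Subgroup E) := inferInstance
  have := Fintype.ofFinite (Subgroup E)
  obtain ⟨W, hW⟩ : ∃ W : Finset ((Fin n → E) × (Fin n → G)),
      W = Finset.univ.filter fun z => (∀ i, X.proj (z.1 i) = a i) ∧ cprod X z.1 z.2 = 1 := ⟨_, rfl⟩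
  have h1 := (hMOB E).1 fun K => ((W.filter fun z => SEP_gen X z = K).card : ℤ)
  have h2 : (epi X a : ℤ) = ((W.filter fun z => SEP_gen X z = ⊤).card : ℤ) := by
    unfold epi
    rw [Nat.card_eq_fintype_card, Fintype.card_subtype, hW, Finset.filter_filter]
    congr 1
    refine congrArg Finset.card (Finset.filter_congr fun z _ => ?_)
    unfold SEP_gen
    tauto
  have h3 : ∀ L : Subgroup E, (homL X a L : ℤ) =
      ∑ᶠ K ∈ {K : Subgroup E | K ≤ L}, ((W.filter fun z => SEP_gen X z = K).card : ℤ) := by
    intro L
    have h4 : homL X a L = (W.filter fun z => SEP_gen X z ≤ L).card := by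
      unfold homL
      rw [Nat.card_eq_fintype_card, Fintype.card_subtype, hW, Finset.filter_filter]
      refine congrArg Finset.card (Finset.filter_congr fun z _ => ?_)
      rw [SEP_gen_le]
      tauto
    have h5 : (W.filter fun z => SEP_gen X z ≤ L).card =
        ∑ K ∈ Finset.univ.filter (fun K : Subgroup E => K ≤ L),
          (W.filter fun z => SEP_gen X z = K).card := by
      rw [Finset.card_eq_sum_card_fiberwise (f := SEP_gen X)
        (t := Finset.univ.filter (fun K : Subgroup E => K ≤ L))]
      · refine Finset.sum_congr rfl fun K hK => ?_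
        rw [Finset.filter_filter]
        refine congrArg Finset.card (Finset.filter_congr fun z _ => ?_)
        constructor
        · exact fun h => h.2
        · intro h
          refine ⟨?_, h⟩
          rw [h]
          exact (Finset.mem_filter.1 hK).2
      · intro z hz
        rw [Finset.mem_coe, Finset.mem_filter] at hz
        rw [Finset.mem_coe, Finset.mem_filter]
        exact ⟨Finset.mem_univ _, hz.2⟩
    have h6 : {K : Subgroup E | K ≤ L} =
        ((Finset.univ.filter fun K : Subgroup E => K ≤ L : Finset (Subgroup E)) : Set (Subgroup E)) := by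
      ext K
      simp
    rw [h4, h5, h6, finsum_mem_coe_finset]
    push_cast
    rfl
  rw [h2, ← h1]
  exact finsum_congr fun L => by rw [h3]

end Pool.Agent.WC
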